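import Pool.Agent.QSN.StmtsD

/-!
# Squad QSB: admissible algebras (helper19)
-/

set_option autoImplicit false

namespace Pool.Agent.QSB

open Matrix Finset Pool.Agent.QSX Pool.Agent.QSN

/-- The admissible algebras of `k × k` matrices: `𝔻` is spanned by rational matrices, closed under the
transpose, and a division algebra. -/
def Adm {k : ℕ} (𝔻 : Subalgebra ℝ (Matrix (Fin k) (Fin k) ℝ)) : Prop :=
  0 < k ∧ RatSp 𝔻 ∧ (∀ a ∈ 𝔻, aᵀ ∈ 𝔻) ∧ ∀ a ∈ 𝔻, a ≠ 0 → ∃ b ∈ 𝔻, a * b = 1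

/-- `𝔻` has an element `h ≠ 0` with `hᵀ = - ε h` (`ε = 1` or `-1`). -/
def Sk {k : ℕ} (𝔻 : Subalgebra ℝ (Matrix (Fin k) (Fin k) ℝ)) (ε : ℝ) : Prop :=
  ∃ h ∈ 𝔻, h ≠ 0 ∧ hᵀ = (-ε) • h

/-- the real numbers as `1 × 1` matrices -/
noncomputable abbrev KR : Subalgebra ℝ (Matrix (Fin 1) (Fin 1) ℝ) :=
  reg ℝ (Module.Basis.singleton (Fin 1) ℝ)

/-- the complex numbers as `2 × 2` matrices -/
noncomputable abbrev KC : Subalgebra ℝ (Matrix (Fin 2) (Fin 2) ℝ) := reg ℂ Complex.basisOneI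

/-- the quaternions as `4 × 4` matrices -/
noncomputable abbrev KH : Subalgebra ℝ (Matrix (Fin 4) (Fin 4) ℝ) :=
  reg (Quaternion ℝ) (QuaternionAlgebra.basisOneIJK (-1) 0 (-1))

theorem Adm.herm {k : ℕ} {𝔻 : Subalgebra ℝ (Matrix (Fin k) (Fin k) ℝ)} {ε : ℝ} (h : Adm 𝔻)
    (hs : Sk 𝔻 ε) : Herm 𝔻 ε := ⟨h.2.1, h.2.2.1, h.2.2.2, hs⟩

theorem adm_of_herm {k : ℕ} {𝔻 : Subalgebra ℝ (Matrix (Fin k) (Fin k) ℝ)} {ε : ℝ} (hk : 0 < k)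
    (h : Herm 𝔻 ε) : Adm 𝔻 := ⟨hk, h.1, h.2.1, h.2.2.1⟩

end Pool.Agent.QSB
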