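import Pool.Agent.QSB.StmtsU

set_option autoImplicit false

/-! # Row MSM of squad QSB: `MRS` implies `MRB` -/

namespace Pool.Agent.QSB.H19

open Matrix Finset Pool.Agent.QSX Pool.Agent.QSN

theorem mrs_eq {X : Dat} (hX : MRS X) {l l' : hX.ι} (h : ∃ c : ℝ, hX.rt l = c • hX.rt l') :
    hX.rt l = hX.rt l' := by
  by_contra hne
  obtain ⟨c, hc⟩ := h
  exact hX.nonprop l l' hne c hc

theorem msm : MsmStmt := by
  rintro X ⟨hX⟩
  have hne : ∀ {l l' : hX.ι}, (∀ c : ℝ, hX.rt l ≠ c • hX.rt l') → hX.rt l ≠ hX.rt l' :=
    fun h e => h 1 (by rw [one_smul]; exact e)
  exact ⟨{ ι := hX.ι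
           fin := hX.fin
           dec := hX.dec
           e := hX.e
           rat := hX.rat
           span_e := hX.span_e
           lin := hX.lin
           rt := hX.rt
           wt := hX.wt
           pos := hX.pos
           sep := hX.sep
           ray := by
             intro l l' c h
             right; left
             have h1 := mrs_eq hX ⟨c, h⟩
             obtain ⟨a, ha⟩ := hX.pos
             have h2 := congrArg (fun f : X.b →ₗ[ℝ] ℝ => f a) (h1.symm.trans h)
             simp only [LinearMap.smul_apply, smul_eq_mul] at h2
             have h3 := (ha l').ne'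
             have h4 : (c - 1) * hX.rt l' a = 0 := by linarith
             rcases mul_eq_zero.1 h4 with h5 | h5
             · linarith
             · exact absurd h5 h3
           gen := by
             intro t s l l' h p q hp hq hs ht
             have hts := mrs_eq hX ht
             have h1 := hX.gen t l l' (hne h) p q hp hq (hts.trans hs)
             refine Submodule.span_mono ?_ h1
             rintro z ⟨w, w', h2, h3, h4⟩
             exact ⟨w, w', hX.nonprop _ _ h2, h3, h4⟩
           J := hX.J
           comp := hX.comp
           top := hX.top
           comp_top := hX.comp_top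
           comp_rt := fun l l' c h => hX.comp_rt l l' (mrs_eq hX ⟨c, h⟩)
           climb := fun l hl x hx h => hX.climb l hl x hx
             (fun k hk => h k (hX.nonprop k l hk))
           rank1 := hX.rank1
           scal := hX.scal }⟩

end Pool.Agent.QSB.H19
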