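import Pool.Agent.Helper45_QSB.ALL
import Pool.Agent.Helper10_QSX.PUB
import Pool.Agent.QSN.StmtsD
import Pool.Agent.QSN.StmtsE
import Pool.Agent.QSB.StmtsG
import Pool.Agent.Helper18_QSB.Bridge
import Pool.Agent.Helper18_QSB.FNB
import Pool.Agent.Helper18_QSB.MSB
import Pool.Agent.Helper4_QSN.WTX
import Pool.Agent.Helper27_QSN.CSR
import Pool.Agent.Helper62_QSN.CBM
import Pool.Agent.Helper15_QSN.CCM
import Pool.Agent.Helper17_QSN.CKM
import Pool.Agent.Helper43_QSN.CDM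
import Pool.Agent.Helper23_QSN.CVM
import Pool.Agent.Helper10_QSN.MSD
import Pool.Agent.Helper12_QSN.SLS
import Pool.Agent.Helper54_QSN.SLX
import Pool.Agent.Helper15_QSN.SCT
import Pool.Agent.Helper10_QSN.SWD
import Pool.Agent.Helper85_QSN.SAC
import Pool.Agent.Helper50_QSN.STW
import Pool.Agent.Helper46_QSN.SON
import Pool.Agent.Helper65_QSN.SLB
import Pool.Agent.Helper80_QSN.SLG
import Pool.Agent.Helper95_QSN.SLI
import Pool.Agent.Helper67_QSN.SLR
import Pool.Agent.Helper98_QSN.SLP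
import Pool.Agent.Helper24_QSN.SLQ
import Pool.Agent.Helper89_QSN.SLZ
import Pool.Agent.Helper36_QSN.SLF

/-!
# Squad QSB: assembly, first part (helper19)

The rows of the squads QSN and QSB are put together: weak embeddings in all ranks, `SL_n` over the
real numbers, the complex numbers and the quaternions.
-/

set_option autoImplicit false

namespace Pool.Agent.QSB.Out

open Pool.Agent.QSX Pool.Agent.QSX.Asm Pool.Agent.QSB.All Matrix Finset

/-! ### Data of type `MS` -/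

theorem n_wtx : Pool.Agent.QSN.WtxStmt := Pool.Agent.QSN.H4.wtx
theorem n_csr : Pool.Agent.QSN.CsrStmt := Pool.Agent.QSN.H27.csr n_wtx
theorem n_cbm : Pool.Agent.QSN.CbmStmt := Pool.Agent.QSN.H62.cbm a_cha a_lgm
theorem n_ccm : Pool.Agent.QSN.CcmStmt := Pool.Agent.QSN.H15.ccm a_mcj a_bch a_lgm
theorem n_ckm : Pool.Agent.QSN.CkmStmt := Pool.Agent.QSN.H17.ckm a_bch a_lgm
theorem n_cdm : Pool.Agent.QSN.CdmStmt := Pool.Agent.QSN.H43.cdm a_lgm n_cbm n_ccm n_ckm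
theorem n_cvm : Pool.Agent.QSN.CvmStmt := Pool.Agent.QSN.H23.cvm n_cam n_ccm n_cdm
theorem b_msb : MsbStmt := H18.msb n_csr
theorem b_wkx : WkxStmt := H18.wkx b_vgq b_wkm

/-- A weak embedding of a datum of type `MS` is a weak embedding in the sense of the squad QSN. -/
theorem wkEmb_of_wkP {X Y : Dat} (hX : Pool.Agent.QSN.MS X) (h : WkP X Y) :
    Pool.Agent.QSN.WkEmb X Y := by
  obtain ⟨T, P, h1, h2, h3, h4, h5, h6⟩ := h
  refine ⟨T, P, h1, h2, h3, h4, h5, ?_⟩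
  intro ρ σ hρσ x y hx hy
  have rt : ∀ (τ : X.b →ₗ[ℝ] ℝ) (z : X.n), z ≠ 0 →
      (∀ c : X.b, diagonal (c : Fin X.m → ℝ) * (z : Matrix (Fin X.m) (Fin X.m) ℝ) -
        (z : Matrix (Fin X.m) (Fin X.m) ℝ) * diagonal (c : Fin X.m → ℝ) =
          τ c • (z : Matrix (Fin X.m) (Fin X.m) ℝ)) → ∃ l, hX.rt l = τ := by
    intro τ z hz hw
    have h := n_wtx X hX τ z z.2 hw
    by_contra hc
    have h3 : {t | hX.rt t = τ} = ∅ := by
      ext t
      exact ⟨fun h => hc ⟨t, h⟩, fun h => h.elim⟩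
    rw [h3, Set.image_empty, Submodule.span_empty, Submodule.mem_bot] at h
    exact hz (Subtype.ext h)
  by_cases hx0 : x = 0
  · subst hx0
    have e : (⟨_, X.lie _ (0 : X.n).2 y y.2⟩ : X.n) = 0 := Subtype.ext (by simp)
    rw [e, map_zero, zero_mul, mul_zero, sub_zero]
  by_cases hy0 : y = 0
  · subst hy0
    have e : (⟨_, X.lie x x.2 _ (0 : X.n).2⟩ : X.n) = 0 := Subtype.ext (by simp)
    rw [e, map_zero, zero_mul, mul_zero, sub_zero]
  obtain ⟨l, hl⟩ := rt ρ x hx0 hx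
  obtain ⟨l', hl'⟩ := rt σ y hy0 hy
  subst hl
  subst hl'
  exact h6 _ _ ⟨hX.nonprop l l' hρσ, hX.nonprop l' l (Ne.symm hρσ)⟩ x y ⟨x.2, hx⟩ ⟨y.2, hy⟩

theorem n_wkx : Pool.Agent.QSN.WkxStmt := by
  intro X Y hX h
  have h1 := b_wkx X Y (b_msb X hX) h
  obtain ⟨hX⟩ := hX
  exact wkEmb_of_wkP hX h1

/-! ### `SL_n` over the real numbers, the complex numbers and the quaternions -/

theorem n_slb : Pool.Agent.QSN.SlbStmt :=
  Pool.Agent.QSN.H65.slb
    (Pool.Agent.QSN.H50.stw Pool.Agent.QSN.H15.sct Pool.Agent.QSN.H10.swd Pool.Agent.QSN.H85.sac)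
    (Pool.Agent.QSN.H46.son Pool.Agent.QSN.H15.sct Pool.Agent.QSN.H10.swd Pool.Agent.QSN.H85.sac)

theorem n_slz : Pool.Agent.QSN.SlzStmt :=
  Pool.Agent.QSN.H89.slz Pool.Agent.QSN.H54.slx n_slb
    (Pool.Agent.QSN.H95.sli Pool.Agent.QSN.H80.slg a_acm) Pool.Agent.QSN.H67.slr
    Pool.Agent.QSN.H98.slp Pool.Agent.QSN.H24.slq

theorem n_slf : Pool.Agent.QSN.SlfStmt :=
  Pool.Agent.QSN.H36.slf n_wkx n_cvm Pool.Agent.QSN.H10.msd Pool.Agent.QSN.H12.sls n_slz a_emb a_len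

end Pool.Agent.QSB.Out
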