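import Pool.Agent.Helper45_QSB.SYM
import Pool.Agent.Helper19_QSB.OutA
import Pool.Agent.QSB.StmtsU
import Pool.Agent.Helper70_QSB.RYD
import Pool.Agent.Helper21_QSB.RYO
import Pool.Agent.Helper77_QSB.RYU
import Pool.Agent.Helper62_QSB.EHM
import Pool.Agent.Helper96_QSB.RYH
import Pool.Agent.Helper89_QSB.S3O
import Pool.Agent.Helper28_QSB.S3U
import Pool.Agent.Helper17_QSB.S3H
import Pool.Agent.Helper16_QSB.HEM
import Pool.Agent.Helper67_QSB.RRP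
import Pool.Agent.Helper51_QSB.MBH
import Pool.Agent.Helper67_QSB.DSC
import Pool.Agent.Helper51_QSB.SYD
import Pool.Agent.Helper72_QSB.SYO
import Pool.Agent.Helper88_QSB.SYU
import Pool.Agent.Helper63_QSB.SYH
import Pool.Agent.Helper12_QSB.SYP
import Pool.Agent.Helper6_QSB.SYC
import Pool.Agent.Helper70_QSN.MSO
import Pool.Agent.Helper30_QSN.MSU
import Pool.Agent.Helper60_QSN.OEM
import Pool.Agent.Helper77_QSN.EXA
import Pool.Agent.Helper19_QSB.H2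
import Pool.Agent.Helper29_QSB.S4D
import Pool.Agent.Helper62_QSB.MNR
import Pool.Agent.Helper26_QSB.PNR
import Pool.Agent.Helper42_QSB.CNR
import Pool.Agent.Helper30_QSB.ALC
import Pool.Agent.QSB.StmtsV
import Pool.Agent.Helper19_QSB.MSM
import Pool.Agent.Helper10_QSB.NAS
import Pool.Agent.Helper75_QSB.SNA

/-!
# Squad QSB: assembly, second part (helper19)

The class `Src`, the main theorem, examples.
-/

set_option autoImplicit false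

namespace Pool.Agent.QSB.Out

open Pool.Agent.QSX Pool.Agent.QSX.Asm Pool.Agent.QSB.All Matrix Finset
open Pool.Agent.QSN (QE datO datU RatSp Herm SLd bnd reg)

/-! ### The rows -/

theorem e_ehm : EhmStmt := H62.ehm
theorem e_ryh : RyhStmt := H96.ryh e_ehm
theorem e_mbh : MbhStmt := H51.mbh e_ehm e_ryh
theorem e_s3h : S3hStmt := H17.s3h e_ehm
theorem e_dsc : DscStmt := H67.dsc
theorem e_syd : SydStmt := H51.syd e_dsc
theorem e_syo : SyoStmt := H72.syo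
theorem e_syu : SyuStmt := H88.syu e_dsc
theorem e_syh : SyhStmt := H63.syh e_dsc
theorem e_syp : SypStmt := H12.syp
theorem e_syc : SycStmt := H6.syc
theorem e_s4d : S4dStmt := H29.s4d
theorem e_msm : MsmStmt := H19.msm
theorem e_mnr : MnrStmt := H62.mnr
theorem e_pnr : PnrStmt := H26.pnr
theorem e_cnr : CnrStmt := H42.cnr
theorem e_alc : AlcStmt := H30A.alc

theorem e_nas : NasStmt := H10.nas s_gwb s_int s_wtr s_smr s_spr s_sup
theorem e_sna : SnaStmt := H75.sna s_gwb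

/-! ### The class of the sources -/

theorem mb_src {X : Dat} (h : Src X) : Nonempty (MB X) := by
  obtain ⟨hS, R, hR⟩ := h
  exact sym_mb X hS R hR

theorem src_of {X : Dat} (hS : Nonempty (Sym X)) (hM : Nonempty (MRB X)) : Src X :=
  ⟨hS, e_mnr X hM⟩

/-! ### The main theorem -/

/-- The main theorem, equal rank, with the condition `S4`. -/
theorem main4 (X Y : Dat) (hX : Src X) (hY : Nonempty (Sym Y)) (h4 : S4 X ∨ Red Y)
    (hr : Module.finrank ℝ X.b = Module.finrank ℝ Y.b) :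
    (QE X Y ↔ Emb X Y) ∧ ((∃ f : X.Pt → Y.Pt, QIE X.dist Y.dist f) ↔ Emb X Y) := by
  obtain ⟨hS, R, hR⟩ := hX
  rw [emb_iff]
  exact All.fin X Y hS R hR hY h4 hr

theorem s4_of_src {X : Dat} (hX : Src X) (h : ¬ A2f X) : S4 X := by
  obtain ⟨hS, R, hR⟩ := hX
  exact s_s4a X hS ⟨R⟩ (e_nas X hS R hR h)

/-- **The main theorem**, equal rank. -/
theorem main (X Y : Dat) (hX : Src X) (hY : Nonempty (Sym Y)) (h4 : ¬ A2f X ∨ Red Y)
    (hr : Module.finrank ℝ X.b = Module.finrank ℝ Y.b) :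
    (QE X Y ↔ Emb X Y) ∧ ((∃ f : X.Pt → Y.Pt, QIE X.dist Y.dist f) ↔ Emb X Y) :=
  main4 X Y hX hY (h4.imp_left (s4_of_src hX)) hr

/-- Weak embeddings in all ranks. -/
theorem weak (X Y : Dat) (hX : Src X) (h : QE X Y) : WkP X Y := r_wkx X Y (mb_src hX) h

theorem s4_of_s4s (X : Dat) (hX : Src X) (h : S4s X) : S4 X := by
  obtain ⟨hS, R, -⟩ := hX
  exact s_s4a X hS ⟨R⟩ h

/-! ### Examples -/

section D

variable {k n : ℕ} {𝔻 : Subalgebra ℝ (Matrix (Fin k) (Fin k) ℝ)}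

theorem src_D (hk : 0 < k) (hn : 3 ≤ n) (hD : Div 𝔻) (hR : RatSp 𝔻) : Src (datD n 𝔻) :=
  src_of (e_syd k n 𝔻 hk hD) (e_msm _ (Pool.Agent.QSN.H10.msd k n 𝔻 hk hn hR))

/-- the hyperbolic plane -/
theorem src_H2 (𝔻 : Subalgebra ℝ (Matrix (Fin 1) (Fin 1) ℝ)) (hD : Div 𝔻) : Src (datD 2 𝔻) :=
  ⟨e_syd 1 2 𝔻 one_pos hD, rb2 𝔻, nr2 𝔻⟩

theorem na_H2 (𝔻 : Subalgebra ℝ (Matrix (Fin 1) (Fin 1) ℝ)) : ¬ A2f (datD 2 𝔻) := by
  rintro ⟨α, β, hα, hβ, -, hn, -⟩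
  obtain ⟨_, rfl⟩ := (s_wtr (datD 2 𝔻) (rb2 𝔻) α).2.1 hα
  obtain ⟨_, rfl⟩ := (s_wtr (datD 2 𝔻) (rb2 𝔻) β).2.1 hβ
  exact hn.1 1 (one_smul _ _).symm

theorem red_D (hk : 0 < k) : Red (datD n 𝔻) := (H70.ryd k n 𝔻 hk).2

end D

theorem src_O {p d : ℕ} (hp : 2 ≤ p) (hd : 1 ≤ d) : Src (datO p d) :=
  src_of (e_syo p d) (e_msm _ (Pool.Agent.QSN.H70.mso p d hp hd))

theorem red_O (p d : ℕ) : Red (datO p d) := (H21.ryo p d).2

theorem s4_O {p d : ℕ} (hp : 2 ≤ p) : S4 (datO p d) := s_s43.1 _ (H89.s3o p d hp)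

section U

variable {k p : ℕ} {𝔻 : Subalgebra ℝ (Matrix (Fin k) (Fin k) ℝ)} {ε : ℝ} (hε : ε * ε = 1)

theorem div_of_herm {ε : ℝ} (h : Herm 𝔻 ε) : Div 𝔻 := ⟨h.2.1, h.2.2.1⟩

theorem src_U (hk : 0 < k) (hp : 2 ≤ p) (hH : Herm 𝔻 ε) : Src (datU p 𝔻 ε hε) :=
  src_of (e_syu k p 𝔻 ε hε hk (div_of_herm hH))
    (e_msm _ (Pool.Agent.QSN.H30M.msu k p 𝔻 ε hε hk hp hH))

theorem red_U (hk : 0 < k) : Red (datU p 𝔻 ε hε) := (H77.ryu k p 𝔻 ε hε hk).2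

theorem s4_U (hk : 0 < k) (hp : 2 ≤ p) (hH : Herm 𝔻 ε) : S4 (datU p 𝔻 ε hε) :=
  s_s43.1 _ (H28.s3u k p 𝔻 ε hε hk hp hH)

end U

section H

variable {p d k : ℕ} {𝔻 : Subalgebra ℝ (Matrix (Fin k) (Fin k) ℝ)}

theorem src_H (hk : 0 < k) (hp : 2 ≤ p) (hd : 1 ≤ d) (hH : Herm 𝔻 1) : Src (datH p d 𝔻) :=
  src_of (e_syh p d k 𝔻 hk (div_of_herm hH)) (e_mbh p d k 𝔻 hk hp hd hH)

theorem s4_H (hk : 0 < k) (hp : 2 ≤ p) (hd : 1 ≤ d) (hH : Herm 𝔻 1) : S4 (datH p d 𝔻) :=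
  s_s43.1 _ (e_s3h p d k 𝔻 hk hp hd hH)

end H

theorem src_P {X₁ X₂ : Dat} (h₁ : Src X₁) (h₂ : Src X₂) : Src (X₁.prod X₂) :=
  ⟨e_syp X₁ X₂ h₁.1 h₂.1, e_pnr X₁ X₂ h₁.2 h₂.2⟩

theorem s4_P {X₁ X₂ : Dat} (h₁ : Nonempty (Sym X₁)) (h₂ : Nonempty (Sym X₂)) (g₁ : S4 X₁)
    (g₂ : S4 X₂) : S4 (X₁.prod X₂) :=
  (r_rqp X₁ X₂ (s_rys X₁ h₁) (s_rys X₂ h₂)).1 g₁ g₂

theorem red_P {X₁ X₂ : Dat} (h₁ : Nonempty (Sym X₁)) (h₂ : Nonempty (Sym X₂)) (g₁ : Red X₁)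
    (g₂ : Red X₂) : Red (X₁.prod X₂) :=
  (H67.rrp X₁ X₂ (s_rys X₁ h₁) (s_rys X₂ h₂)).2.2.2 g₁ g₂

theorem na_P {X₁ X₂ : Dat} (h₁ : Src X₁) (h₂ : Src X₂) (g₁ : ¬ A2f X₁) (g₂ : ¬ A2f X₂) :
    ¬ A2f (X₁.prod X₂) :=
  e_sna _ (e_syp X₁ X₂ h₁.1 h₂.1) (s4_P h₁.1 h₂.1 (s4_of_src h₁ g₁) (s4_of_src h₂ g₂))

theorem src_C {X : Dat} (S : Sym X)
    (hc : ∀ y ∈ S.g, yᵀ = -y →
      diagonal (S.a₀ : Fin X.m → ℝ) * y = y * diagonal (S.a₀ : Fin X.m → ℝ) → y = 0)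
    (R : RBas X)
    (hR : ∀ l, ∃ l', (∀ c : ℝ, R.rt l' ≠ c • R.rt l) ∧ ip X (R.rt l) (R.rt l') ≠ 0) :
    Src X.C :=
  ⟨e_syc X S hc, e_cnr X R hR⟩

/-! ### Consequences -/

theorem exO {p d d' : ℕ} (hp : 2 ≤ p) (hd : 1 ≤ d) :
    (QE (datO p d) (datO p d') ↔ d ≤ d') ∧
    ((∃ f : (datO p d).Pt → (datO p d').Pt, QIE (datO p d).dist (datO p d').dist f) ↔
      d ≤ d') := by
  have oem := Pool.Agent.QSN.H60.oem
  have hm := main4 (datO p d) (datO p d') (src_O hp hd) (e_syo p d') (Or.inr (red_O p d'))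
    ((oem p d (by omega)).2.1.trans (oem p d' (by omega)).2.1.symm)
  have key : Emb (datO p d) (datO p d') ↔ d ≤ d' := by
    rw [emb_iff]
    refine ⟨fun h => ?_, fun h => ?_⟩
    · by_contra hcon
      have hmono : StrictMono fun d => Module.finrank ℝ (datO p d).n :=
        strictMono_nat_of_lt_succ fun d => (oem p d (by omega)).2.2
      have h1 : Module.finrank ℝ (datO p d').n < Module.finrank ℝ (datO p d).n :=
        hmono (by omega)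
      have h2 := Pool.Agent.QSN.H77.alg_dim h
      omega
    · clear hm
      induction d', h using Nat.le_induction with
      | base => exact Pool.Agent.QSN.H77.exa_refl _
      | succ e he ih => exact a_acm _ _ _ ih (oem p e (by omega)).1
  exact ⟨hm.1.trans key, hm.2.trans key⟩

theorem exH {p d d' k : ℕ} {𝔻 : Subalgebra ℝ (Matrix (Fin k) (Fin k) ℝ)} (hk : 0 < k)
    (hp : 2 ≤ p) (hd : 1 ≤ d) (hH : Herm 𝔻 1) :
    (QE (datH p d 𝔻) (datH p d' 𝔻) ↔ d ≤ d') ∧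
    ((∃ f : (datH p d 𝔻).Pt → (datH p d' 𝔻).Pt,
      QIE (datH p d 𝔻).dist (datH p d' 𝔻).dist f) ↔ d ≤ d') := by
  have hem := fun d => H16.hem p d k 𝔻 hk (by omega)
  have hm := main4 (datH p d 𝔻) (datH p d' 𝔻) (src_H hk hp hd hH)
    (e_syh p d' k 𝔻 hk (div_of_herm hH)) (Or.inl (s4_H hk hp hd hH))
    ((hem d).2.1.trans (hem d').2.1.symm)
  have key : Emb (datH p d 𝔻) (datH p d' 𝔻) ↔ d ≤ d' := by
    rw [emb_iff]
    refine ⟨fun h => ?_, fun h => ?_⟩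
    · by_contra hcon
      have hmono : StrictMono fun d => Module.finrank ℝ (datH p d 𝔻).n :=
        strictMono_nat_of_lt_succ fun d => (hem d).2.2
      have h1 : Module.finrank ℝ (datH p d' 𝔻).n < Module.finrank ℝ (datH p d 𝔻).n :=
        hmono (by omega)
      have h2 := Pool.Agent.QSN.H77.alg_dim h
      omega
    · clear hm
      induction d', h using Nat.le_induction with
      | base => exact Pool.Agent.QSN.H77.exa_refl _
      | succ e he ih => exact a_acm _ _ _ ih (hem e).1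
  exact ⟨hm.1.trans key, hm.2.trans key⟩

end Pool.Agent.QSB.Out
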