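import Pool.Agent.Helper19_QSB.Pub
import Pool.Agent.Helper19_QSB.OutB
import Pool.Agent.Helper19_QSB.Alg

/-!
# The public definitions are equivalent to those of the squad QSB
-/

set_option autoImplicit false

namespace Pool.Agent.QSB.Out

open Matrix Finset Pool.Agent.QSX Pool.Agent.QSX.Asm Pool.Agent.QSB.All

theorem isSym_iff (X : Dat) : IsSym X ↔ Nonempty (Sym X) := by
  constructor
  · rintro ⟨g, a, h1, h2, h3, h4, h5⟩
    exact ⟨{ g := g
             lie := fun x hx y hy => (h1 x hx).2 y hy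
             tr := fun x hx => (h1 x hx).1
             b_mem := h2
             a₀ := ⟨a, h3⟩
             n_mem := h4
             reg := fun x hx ht hc => h5 x hx ht (sub_eq_zero.2 hc) }⟩
  · rintro ⟨S⟩
    exact ⟨S.g, S.a₀, fun x hx => ⟨S.tr x hx, fun y hy => S.lie x hx y hy⟩, S.b_mem, S.a₀.2,
      S.n_mem, fun x hx ht hc => S.reg x hx ht (sub_eq_zero.1 hc)⟩

theorem dp_tv {X : Dat} (ρ : X.b →ₗ[ℝ] ℝ) (c : X.b) :
    (tv X ρ : Fin X.m → ℝ) ⬝ᵥ (c : Fin X.m → ℝ) = ρ c := by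
  rw [tv_apply, dotProduct]
  exact Finset.sum_congr rfl fun i _ => mul_comm _ _

theorem ip_dp {X : Dat} (μ ν : X.b →ₗ[ℝ] ℝ) :
    ip X μ ν = (tv X μ : Fin X.m → ℝ) ⬝ᵥ (tv X ν : Fin X.m → ℝ) := rfl

/-- the functional of a vector of `b` -/
noncomputable def fn {X : Dat} {u : Fin X.m → ℝ} (hu : u ∈ X.b) : X.b →ₗ[ℝ] ℝ :=
  (tv X).symm ⟨u, hu⟩

theorem tv_fn {X : Dat} {u : Fin X.m → ℝ} (hu : u ∈ X.b) : tv X (fn hu) = ⟨u, hu⟩ :=
  (tv X).apply_symm_apply _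

theorem tv_fn' {X : Dat} {u : Fin X.m → ℝ} (hu : u ∈ X.b) :
    (tv X (fn hu) : Fin X.m → ℝ) = u := by rw [tv_fn]

theorem rootV_iff {X : Dat} (ρ : X.b →ₗ[ℝ] ℝ) (x : Matrix (Fin X.m) (Fin X.m) ℝ) :
    RtV X ρ x ↔ RootV X (tv X ρ) x := by
  constructor
  · rintro ⟨⟨h1, h2⟩, h3⟩
    refine ⟨(tv X ρ).2, h1, h3, fun c hc => ?_⟩
    have h4 := dp_tv ρ ⟨c, hc⟩
    rw [lieb, h4]
    exact h2 ⟨c, hc⟩
  · rintro ⟨-, h1, h3, h2⟩
    refine ⟨⟨h1, fun c => ?_⟩, h3⟩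
    rw [← dp_tv ρ c]
    exact h2 c c.2

theorem root_iff {X : Dat} (ρ : X.b →ₗ[ℝ] ℝ) : IsRt X ρ ↔ Root X (tv X ρ) :=
  exists_congr fun x => rootV_iff ρ x

theorem rootV_fn {X : Dat} {u : Fin X.m → ℝ} (hu : u ∈ X.b)
    (x : Matrix (Fin X.m) (Fin X.m) ℝ) : RtV X (fn hu) x ↔ RootV X u x := by
  rw [rootV_iff, tv_fn' hu]

theorem root_fn {X : Dat} {u : Fin X.m → ℝ} (hu : u ∈ X.b) : IsRt X (fn hu) ↔ Root X u := by
  rw [root_iff, tv_fn' hu]

theorem root_mem {X : Dat} {u : Fin X.m → ℝ} (h : Root X u) : u ∈ X.b := by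
  obtain ⟨x, hx⟩ := h
  exact hx.1

theorem tv_inj {X : Dat} {μ ν : X.b →ₗ[ℝ] ℝ}
    (h : (tv X μ : Fin X.m → ℝ) = (tv X ν : Fin X.m → ℝ)) : μ = ν :=
  (tv X).injective (Subtype.ext h)

theorem isSrc_iff (X : Dat) : IsSrc X ↔ Src X := by
  unfold IsSrc Src
  rw [isSym_iff]
  refine and_congr_right fun _ => ?_
  constructor
  · rintro ⟨N, e, rt, h1, h2, h3, h4, h5, h6⟩
    refine ⟨{ ι := Fin N
              fin := inferInstance
              dec := inferInstance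
              e := e
              rat := h1
              span_e := h3
              lin := h2
              rt := fun l => fn (h4 l).1
              wt := fun l c => ((rootV_fn (h4 l).1 (e l)).2 (h4 l)).1.2 c
              sep := ?_ }, ?_⟩
    · intro a ha
      refine Subtype.ext (h5 a a.2 fun l => ?_)
      rw [← tv_fn' (h4 l).1, dp_tv]
      exact ha l
    · intro l
      rcases h6 l with ⟨l', h7, h8⟩ | h7
      · left
        refine ⟨l', fun c hc => ?_, ?_⟩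
        · apply h8 c
          have h9 := congrArg (tv X) hc
          rw [map_smul] at h9
          have h10 := congrArg Subtype.val h9
          change (tv X (fn (h4 l').1) : Fin X.m → ℝ) = c • (tv X (fn (h4 l).1) : Fin X.m → ℝ) at h10
          rwa [tv_fn', tv_fn'] at h10
        · show ip X (fn (h4 l).1) (fn (h4 l').1) ≠ 0
          rw [ip_dp, tv_fn', tv_fn']
          exact h7
      · right
        intro l' h8
        apply h7 l'
        change ip X (fn (h4 l).1) (fn (h4 l').1) ≠ 0 at h8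
        rwa [ip_dp, tv_fn', tv_fn'] at h8
  · rintro ⟨R, hR⟩
    let E := (Fintype.equivFin R.ι).symm
    refine ⟨Fintype.card R.ι, R.e ∘ E, fun l => (tv X (R.rt (E l)) : Fin X.m → ℝ),
      fun l i j => R.rat _ i j, R.lin.comp E E.injective, ?_, ?_, ?_, ?_⟩
    · rw [Set.range_comp, E.surjective.range_eq, Set.image_univ]
      exact R.span_e
    · intro l
      rw [← rootV_iff]
      refine ⟨⟨?_, R.wt (E l)⟩, R.lin.ne_zero (E l)⟩
      rw [← R.span_e]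
      exact Submodule.subset_span ⟨_, rfl⟩
    · intro c hc h
      have h1 := R.sep ⟨c, hc⟩ fun l => by
        have h2 := h (E.symm l)
        beta_reduce at h2
        rw [Equiv.apply_symm_apply] at h2
        rwa [← dp_tv (R.rt l) ⟨c, hc⟩]
      exact congrArg Subtype.val h1
    · intro l
      rcases hR (E l) with ⟨l', h7, h8⟩ | h7
      · left
        refine ⟨E.symm l', ?_, fun r hr => ?_⟩
        · beta_reduce
          rw [Equiv.apply_symm_apply]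
          exact h8
        · beta_reduce at hr
          rw [Equiv.apply_symm_apply] at hr
          apply h7 r
          refine tv_inj ?_
          rw [map_smul]
          exact hr
      · right
        intro l' h8
        have h9 := h7 (E l') h8
        exact E.injective h9

theorem hasA2_iff (X : Dat) : HasA2 X ↔ A2f X := by
  constructor
  · rintro ⟨u, v, hu, hv, huv, h1, h2, x, y, hx, hy, hxy⟩
    have mu := root_mem hu
    have mv := root_mem hv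
    have hadd : ((tv X (fn mu + fn mv) : X.b) : Fin X.m → ℝ) = u + v := by
      rw [map_add]
      show (tv X (fn mu) : Fin X.m → ℝ) + (tv X (fn mv) : Fin X.m → ℝ) = u + v
      rw [tv_fn', tv_fn']
    have hsm : ∀ (r : ℝ) {w : Fin X.m → ℝ} (mw : w ∈ X.b),
        ((tv X (r • fn mw) : X.b) : Fin X.m → ℝ) = r • w := by
      intro r w mw
      rw [map_smul]
      show r • (tv X (fn mw) : Fin X.m → ℝ) = r • w
      rw [tv_fn']
    refine ⟨fn mu, fn mv, (root_fn mu).2 hu, (root_fn mv).2 hv, ?_, ⟨fun c hc => ?_, fun c hc => ?_⟩,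
      ?_, x, y, (rootV_fn mu x).2 hx, (rootV_fn mu y).2 hy, hxy⟩
    · rw [root_iff, hadd]
      exact huv
    · apply (h1 c).1
      rw [← hsm c mv, ← hc, tv_fn']
    · apply (h1 c).2
      rw [← hsm c mu, ← hc, tv_fn']
    · intro γ hγ
      rcases h2 _ ((root_iff γ).1 hγ) with h | h | h | h
      · left
        exact tv_inj (by rw [h, tv_fn'])
      · right; left
        exact tv_inj (by rw [h, tv_fn'])
      · right; right; left
        exact tv_inj (by rw [h, hadd])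
      · right; right; right
        rw [ip_dp, ip_dp, tv_fn', tv_fn']
        exact h
  · rintro ⟨α, β, hα, hβ, hαβ, h1, h2, x, y, hx, hy, hxy⟩
    refine ⟨tv X α, tv X β, (root_iff α).1 hα, (root_iff β).1 hβ, ?_, fun r => ⟨fun hr => ?_,
      fun hr => ?_⟩, ?_, x, y, (rootV_iff α x).1 hx, (rootV_iff α y).1 hy, hxy⟩
    · have h := (root_iff (α + β)).1 hαβ
      rw [map_add] at h
      exact h
    · apply h1.1 r
      refine tv_inj ?_
      rw [map_smul]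
      exact hr
    · apply h1.2 r
      refine tv_inj ?_
      rw [map_smul]
      exact hr
    · intro w hw
      have mw := root_mem hw
      rcases h2 (fn mw) ((root_fn mw).2 hw) with h | h | h | ⟨h3, h4⟩
      · left
        rw [← h, tv_fn']
      · right; left
        rw [← h, tv_fn']
      · right; right; left
        have h5 := congrArg (fun μ => ((tv X μ : X.b) : Fin X.m → ℝ)) h
        simp only [map_add] at h5
        rw [tv_fn'] at h5
        exact h5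
      · right; right; right
        rw [ip_dp, tv_fn'] at h3 h4
        exact ⟨h3, h4⟩

theorem reduced_iff (X : Dat) : Reduced X ↔ Red X := by
  have h2 : ∀ ρ : X.b →ₗ[ℝ] ℝ, ((tv X ((2 : ℝ) • ρ) : X.b) : Fin X.m → ℝ) =
      (2 : ℝ) • (tv X ρ : Fin X.m → ℝ) := by
    intro ρ
    rw [map_smul]
    rfl
  constructor
  · intro h ρ hρ hc
    rw [root_iff] at hρ hc
    rw [h2] at hc
    exact h _ hρ hc
  · intro h u hu hc
    have mu := root_mem hu
    refine h (fn mu) ((root_fn mu).2 hu) ?_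
    rw [root_iff, h2, tv_fn']
    exact hc

theorem qif_iff (X Y : Dat) : QIF X Y ↔ Pool.Agent.QSN.QE X Y := Iff.rfl

/-- **The main theorem** in terms of the public definitions. -/
theorem pub (X Y : Dat) (hX : IsSrc X) (hY : IsSym Y) (h4 : ¬ HasA2 X ∨ Reduced Y)
    (hr : Module.finrank ℝ X.b = Module.finrank ℝ Y.b) :
    (QIF X Y ↔ Emb X Y) ∧ (QI X Y ↔ Emb X Y) := by
  rw [isSrc_iff] at hX
  rw [isSym_iff] at hY
  rw [hasA2_iff, reduced_iff] at h4
  exact main X Y hX hY h4 hr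

theorem admD {k : ℕ} {𝔻 : Subalgebra ℝ (Matrix (Fin k) (Fin k) ℝ)} (h : AdmD 𝔻) : Adm 𝔻 := h

theorem pub_D {k n : ℕ} {𝔻 : Subalgebra ℝ (Matrix (Fin k) (Fin k) ℝ)} (h : AdmD 𝔻) :
    IsSym (datD n 𝔻) ∧ Reduced (datD n 𝔻) ∧ (3 ≤ n → IsSrc (datD n 𝔻)) ∧
      (4 ≤ n → ¬ HasA2 (datD n 𝔻)) := by
  have hA := admD h
  have hD : Pool.Agent.QSB.Div 𝔻 := ⟨hA.2.2.1, hA.2.2.2⟩
  rw [isSym_iff, reduced_iff, isSrc_iff, hasA2_iff]
  exact ⟨e_syd k n 𝔻 hA.1 hD, red_D hA.1, fun hn => src_D hA.1 hn hD hA.2.1,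
    fun hn => e_sna _ (e_syd k n 𝔻 hA.1 hD) (e_s4d k n 𝔻 hA.1 hn)⟩

theorem pub_H {p d k : ℕ} {𝔻 : Subalgebra ℝ (Matrix (Fin k) (Fin k) ℝ)} (h : AdmD 𝔻) :
    IsSym (datH p d 𝔻) ∧ (2 ≤ p → 1 ≤ d → SkD 𝔻 1 →
      IsSrc (datH p d 𝔻) ∧ ¬ HasA2 (datH p d 𝔻)) := by
  have hA := admD h
  have hD : Pool.Agent.QSB.Div 𝔻 := ⟨hA.2.2.1, hA.2.2.2⟩
  rw [isSym_iff, isSrc_iff, hasA2_iff]
  exact ⟨e_syh p d k 𝔻 hA.1 hD, fun hp hd hs => ⟨src_H hA.1 hp hd (hA.herm hs),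
    e_sna _ (e_syh p d k 𝔻 hA.1 hD) (s4_H hA.1 hp hd (hA.herm hs))⟩⟩

theorem pub_U {p k : ℕ} {𝔻 : Subalgebra ℝ (Matrix (Fin k) (Fin k) ℝ)} (h : AdmD 𝔻) (ε : ℝ)
    (hε : ε * ε = 1) :
    IsSym (Pool.Agent.QSN.datU p 𝔻 ε hε) ∧ Reduced (Pool.Agent.QSN.datU p 𝔻 ε hε) ∧
      (2 ≤ p → SkD 𝔻 ε → IsSrc (Pool.Agent.QSN.datU p 𝔻 ε hε) ∧
        ¬ HasA2 (Pool.Agent.QSN.datU p 𝔻 ε hε)) := by
  have hA := admD h
  have hD : Pool.Agent.QSB.Div 𝔻 := ⟨hA.2.2.1, hA.2.2.2⟩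
  rw [isSym_iff, reduced_iff, isSrc_iff, hasA2_iff]
  exact ⟨e_syu k p 𝔻 ε hε hA.1 hD, red_U hε hA.1, fun hp hs => ⟨src_U hε hA.1 hp (hA.herm hs),
    e_sna _ (e_syu k p 𝔻 ε hε hA.1 hD) (s4_U hε hA.1 hp (hA.herm hs))⟩⟩

theorem pub_O (p d : ℕ) :
    IsSym (Pool.Agent.QSN.datO p d) ∧ Reduced (Pool.Agent.QSN.datO p d) ∧
      (2 ≤ p → 1 ≤ d → IsSrc (Pool.Agent.QSN.datO p d) ∧
        ¬ HasA2 (Pool.Agent.QSN.datO p d)) := by
  rw [isSym_iff, reduced_iff, isSrc_iff, hasA2_iff]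
  exact ⟨e_syo p d, red_O p d, fun hp hd => ⟨src_O hp hd, e_sna _ (e_syo p d) (s4_O hp)⟩⟩

theorem pub_P (X Y : Dat) : (IsSym X → IsSym Y → IsSym (X.prod Y) ∧
      (Reduced X → Reduced Y → Reduced (X.prod Y))) ∧
    (IsSrc X → IsSrc Y → IsSrc (X.prod Y) ∧
      (¬ HasA2 X → ¬ HasA2 Y → ¬ HasA2 (X.prod Y))) := by
  simp only [isSym_iff, reduced_iff, isSrc_iff, hasA2_iff]
  exact ⟨fun hX hY => ⟨e_syp X Y hX hY, red_P hX hY⟩,
    fun hX hY => ⟨src_P hX hY, na_P hX hY⟩⟩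

/-- the space `b` of a product -/
noncomputable def bE (X Y : Dat) : (X.prod Y).b ≃ₗ[ℝ] X.b × Y.b where
  toFun c := (⟨fun i => c.1 (Fin.castAdd Y.m i), c.2.1⟩, ⟨fun i => c.1 (Fin.natAdd X.m i), c.2.2⟩)
  map_add' _ _ := rfl
  map_smul' _ _ := rfl
  invFun p := ⟨Fin.append (p.1 : Fin X.m → ℝ) (p.2 : Fin Y.m → ℝ), by
    constructor
    · show (fun i => Fin.append (p.1 : Fin X.m → ℝ) (p.2 : Fin Y.m → ℝ) (Fin.castAdd Y.m i)) ∈ X.b
      have h : (fun i => Fin.append (p.1 : Fin X.m → ℝ) (p.2 : Fin Y.m → ℝ)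
          (Fin.castAdd Y.m i)) = (p.1 : Fin X.m → ℝ) := by
        funext i
        rw [Fin.append_left]
      rw [h]
      exact p.1.2
    · show (fun i => Fin.append (p.1 : Fin X.m → ℝ) (p.2 : Fin Y.m → ℝ) (Fin.natAdd X.m i)) ∈ Y.b
      have h : (fun i => Fin.append (p.1 : Fin X.m → ℝ) (p.2 : Fin Y.m → ℝ)
          (Fin.natAdd X.m i)) = (p.2 : Fin Y.m → ℝ) := by
        funext i
        rw [Fin.append_right]
      rw [h]
      exact p.2.2⟩
  left_inv c := by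
    apply Subtype.ext
    funext i
    refine Fin.addCases (fun i => ?_) (fun i => ?_) i
    · show Fin.append _ _ (Fin.castAdd Y.m i) = _
      rw [Fin.append_left]
    · show Fin.append _ _ (Fin.natAdd X.m i) = _
      rw [Fin.append_right]
  right_inv p := by
    refine Prod.ext (Subtype.ext ?_) (Subtype.ext ?_)
    · funext i
      show Fin.append _ _ (Fin.castAdd Y.m i) = _
      rw [Fin.append_left]
    · funext i
      show Fin.append _ _ (Fin.natAdd X.m i) = _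
      rw [Fin.append_right]

theorem rank_prod (X Y : Dat) : Module.finrank ℝ (X.prod Y).b =
    Module.finrank ℝ X.b + Module.finrank ℝ Y.b := by
  rw [(bE X Y).finrank_eq, Module.finrank_prod]

theorem pub_prod (X Y : Dat) : ∃ Z : Dat,
    (∃ φ : X.Pt × Y.Pt → Z.Pt, Function.Bijective φ ∧
      ∀ p q, Z.dist (φ p) (φ q) = max (X.dist p.1 q.1) (Y.dist p.2 q.2)) ∧
    Module.finrank ℝ Z.b = Module.finrank ℝ X.b + Module.finrank ℝ Y.b ∧
    (IsSym X → IsSym Y → IsSym Z ∧ (Reduced X → Reduced Y → Reduced Z)) ∧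
    (IsSrc X → IsSrc Y → IsSrc Z ∧ (¬ HasA2 X → ¬ HasA2 Y → ¬ HasA2 Z)) := by
  obtain ⟨φ, h1, -, h2⟩ := a_prd X Y
  exact ⟨X.prod Y, ⟨φ, h1, h2⟩, rank_prod X Y, (pub_P X Y).1, (pub_P X Y).2⟩

theorem pub_H2 : IsSrc (datD 2 aR) ∧ ¬ HasA2 (datD 2 aR) := by
  rw [isSrc_iff, hasA2_iff]
  exact ⟨src_H2 _ e_alc.1.1, na_H2 _⟩

theorem pub_alg : AdmD aR ∧ AdmD aC ∧ AdmD aH ∧ SkD aR (-1) ∧ SkD aC 1 ∧ SkD aC (-1) ∧
    SkD aH 1 ∧ SkD aH (-1) := by
  obtain ⟨⟨-, h1⟩, ⟨-, h2, h3⟩, -, h4, h5⟩ := e_alc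
  exact ⟨adm_of_herm (by norm_num) h1, adm_of_herm (by norm_num) h2,
    adm_of_herm (by norm_num) h4, h1.2.2.2, h2.2.2.2, h3.2.2.2, h4.2.2.2, h5.2.2.2⟩

end Pool.Agent.QSB.Out
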