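import Pool.Agent.QSB.StmtsS

/-!
# Squad QSB, row GEM: the field `gen` of `MRB`
-/

set_option autoImplicit false

namespace Pool.Agent.QSB.H19

open Matrix Finset Pool.Agent.QSX Pool.Agent.QSB

/-- roots are different from zero -/
theorem gem_ne {X : Dat} (S : Sym X) {ρ : X.b →ₗ[ℝ] ℝ} (h : IsRt X ρ) : ρ ≠ 0 := by
  rintro rfl
  obtain ⟨x, hx⟩ := h
  obtain ⟨⟨hxn, hw⟩, hx0⟩ := hx
  have hSU := ((S.n_mem x).1 hxn).2
  have hg := ((S.n_mem x).1 hxn).1
  have hc : diagonal (S.a₀ : Fin X.m → ℝ) * x = x * diagonal (S.a₀ : Fin X.m → ℝ) := by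
    have h1 := hw S.a₀
    rw [LinearMap.zero_apply, zero_smul] at h1
    exact sub_eq_zero.1 h1
  apply hx0
  ext i j
  rw [Matrix.zero_apply]
  by_contra hne
  have h1 := congrFun (congrFun hc i) j
  rw [Matrix.diagonal_mul, Matrix.mul_diagonal, mul_comm] at h1
  have h2 := mul_left_cancel₀ hne h1
  have h3 := hSU i j hne
  rw [h2] at h3
  exact lt_irrefl _ h3

/-- row GEM -/
theorem gem (wtr : WtrStmt) (smr : SmrStmt) (sli : SliStmt) (gns : GnsStmt) : GemStmt := by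
  intro X hX R t s l l' hnp p q hp hq hs ht
  obtain ⟨S⟩ := hX
  have hrt : ∀ l, IsRt X (R.rt l) := fun l => ((wtr X R (R.rt l)).2).2 ⟨l, rfl⟩
  refine gns X ⟨S⟩ R t ?_
  intro α hα c' hc'
  obtain ⟨c, hc⟩ := ht
  have hc0 : c ≠ 0 := by
    rintro rfl
    rw [zero_smul] at hc
    exact gem_ne S (hrt t) hc
  have hsα : R.rt s = (c' / c) • α := by
    have h1 : c • R.rt s = c' • α := by rw [← hc, hc']
    have h2 : R.rt s = c⁻¹ • (c • R.rt s) := by
      rw [smul_smul, inv_mul_cancel₀ hc0, one_smul]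
    rw [h2, h1, smul_smul]
    refine congrArg (fun z : ℝ => z • α) ?_
    rw [div_eq_inv_mul]
  obtain ⟨L, hL, hLs⟩ := smr X ⟨S⟩ ⟨R⟩ (R.rt l) (hrt l)
  obtain ⟨L', hL', hLs'⟩ := smr X ⟨S⟩ ⟨R⟩ (R.rt l') (hrt l')
  have hsum : ∀ (n : ℕ) (M : List (X.b →ₗ[ℝ] ℝ)),
      (List.replicate n M).flatten.sum = (n : ℝ) • M.sum := by
    intro n M
    induction n with
    | zero => simp
    | succ n ih =>
      rw [List.replicate_succ, List.flatten_cons, List.sum_append, ih]
      push_cast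
      rw [add_smul, one_smul, add_comm]
  have hmem : ∀ (n : ℕ) (M : List (X.b →ₗ[ℝ] ℝ)) (β : X.b →ₗ[ℝ] ℝ),
      β ∈ (List.replicate n M).flatten → β ∈ M := by
    intro n M β hβ
    obtain ⟨M', hM', hβ'⟩ := List.mem_flatten.1 hβ
    rw [List.eq_of_mem_replicate hM'] at hβ'
    exact hβ'
  have hall := sli X ⟨S⟩ ((List.replicate p L).flatten ++ (List.replicate q L').flatten) α
    (c' / c) (by
      intro β hβ
      rcases List.mem_append.1 hβ with h | h
      · exact hL β (hmem p L β h)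
      · exact hL' β (hmem q L' β h)) hα (by
      rw [List.sum_append, hsum, hsum, hLs, hLs', ← hs, hsα])
  have hLα : ∀ β ∈ L, β = α := by
    intro β hβ
    refine hall β (List.mem_append.2 (Or.inl (List.mem_flatten.2 ⟨L, ?_, hβ⟩)))
    exact List.mem_replicate.2 ⟨by omega, rfl⟩
  have hLα' : ∀ β ∈ L', β = α := by
    intro β hβ
    refine hall β (List.mem_append.2 (Or.inr (List.mem_flatten.2 ⟨L', ?_, hβ⟩)))
    exact List.mem_replicate.2 ⟨by omega, rfl⟩
  have hall2 : ∀ M : List (X.b →ₗ[ℝ] ℝ), (∀ β ∈ M, β = α) → M.sum = (M.length : ℝ) • α := by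
    intro M hM
    rw [List.eq_replicate_of_mem hM, List.sum_replicate, List.length_replicate,
      Nat.cast_smul_eq_nsmul]
  have e1 : R.rt l = (L.length : ℝ) • α := by rw [← hLs, hall2 L hLα]
  have e2 : R.rt l' = (L'.length : ℝ) • α := by rw [← hLs', hall2 L' hLα']
  have hn : (L'.length : ℝ) ≠ 0 := by
    intro h
    rw [h, zero_smul] at e2
    exact gem_ne S (hrt l') e2
  apply hnp ((L.length : ℝ) / (L'.length : ℝ))
  rw [e1, e2, smul_smul, div_mul_cancel₀ _ hn]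

end Pool.Agent.QSB.H19
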