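import Pool.Agent.QSB.StmtsU

set_option autoImplicit false

namespace Pool.Agent.QSB.Out

open Pool.Agent.QSX Matrix Finset
open Pool.Agent.QSN (RatSp)

/-- the functional `c ↦ c 0 - c 1` on `b` for `SL_2` -/
noncomputable def rt2 (𝔻 : Subalgebra ℝ (Matrix (Fin 1) (Fin 1) ℝ)) :
    (datD 2 𝔻).b →ₗ[ℝ] ℝ :=
  ((LinearMap.proj (finProdFinEquiv ((0 : Fin 2), (0 : Fin 1))) :
    (Fin (2 * 1) → ℝ) →ₗ[ℝ] ℝ) - LinearMap.proj (finProdFinEquiv ((1 : Fin 2), (0 : Fin 1)))) ∘ₗ
    (datD 2 𝔻).b.subtype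

/-- the root vector for `SL_2` -/
noncomputable def e2 : Matrix (Fin (2 * 1)) (Fin (2 * 1)) ℝ :=
  blk 1 2 (Matrix.single 0 1 (1 : Matrix (Fin 1) (Fin 1) ℝ))

theorem e2_apply (i i' : Fin 2) (j j' : Fin 1) :
    e2 (finProdFinEquiv (i, j)) (finProdFinEquiv (i', j')) = if i = 0 ∧ i' = 1 then 1 else 0 := by
  rw [e2, blk_apply, Matrix.single_apply]
  have hj : j = j' := Subsingleton.elim _ _
  subst hj
  by_cases h : 0 = i ∧ 1 = i'
  · rw [if_pos h, if_pos ⟨h.1.symm, h.2.symm⟩, Matrix.one_apply_eq]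
  · rw [if_neg h, if_neg (fun h' => h ⟨h'.1.symm, h'.2.symm⟩), Matrix.zero_apply]

/-- the rational basis for `SL_2` (the hyperbolic plane) -/
noncomputable def rb2 (𝔻 : Subalgebra ℝ (Matrix (Fin 1) (Fin 1) ℝ)) : RBas (datD 2 𝔻) where
  ι := Unit
  fin := inferInstance
  dec := inferInstance
  e := fun _ => e2
  rat := by
    intro _ p q
    obtain ⟨⟨i, j⟩, rfl⟩ := finProdFinEquiv.surjective p
    obtain ⟨⟨i', j'⟩, rfl⟩ := finProdFinEquiv.surjective q
    rw [e2_apply]
    by_cases h : i = 0 ∧ i' = 1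
    · exact ⟨1, by rw [if_pos h, Rat.cast_one]⟩
    · exact ⟨0, by rw [if_neg h, Rat.cast_zero]⟩
  span_e := by
    apply le_antisymm
    · rw [Submodule.span_le]
      rintro _ ⟨_, rfl⟩
      refine ⟨_, ⟨fun i j => ?_, fun i j h => ?_⟩, rfl⟩
      · rw [Matrix.single_apply]
        split_ifs
        · exact 𝔻.one_mem
        · exact 𝔻.zero_mem
      · rw [Matrix.single_apply, if_neg]
        rintro ⟨rfl, rfl⟩
        exact absurd h (by decide)
    · rintro _ ⟨x, hx, rfl⟩
      have h1 : blk 1 2 x = (x 0 1 0 0) • e2 := by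
        apply blk_ext
        intro i i' j j'
        rw [Matrix.smul_apply, e2_apply, blk_apply, smul_eq_mul]
        have hj : j = 0 := Subsingleton.elim _ _
        have hj' : j' = 0 := Subsingleton.elim _ _
        subst hj
        subst hj'
        by_cases h : i = 0 ∧ i' = 1
        · rw [if_pos h, mul_one, h.1, h.2]
        · rw [if_neg h, mul_zero]
          have h2 : i' ≤ i := by
            revert h
            fin_cases i <;> fin_cases i' <;> simp
          rw [hx.2 i i' h2, Matrix.zero_apply]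
      rw [h1]
      exact Submodule.smul_mem _ _ (Submodule.subset_span ⟨(), rfl⟩)
  lin := by
    refine LinearIndependent.of_subsingleton () ?_
    intro h
    have h1 := congrFun (congrFun h (finProdFinEquiv ((0 : Fin 2), (0 : Fin 1))))
      (finProdFinEquiv ((1 : Fin 2), (0 : Fin 1)))
    rw [e2_apply, if_pos ⟨rfl, rfl⟩] at h1
    exact one_ne_zero h1
  rt := fun _ => rt2 𝔻
  wt := by
    rintro _ ⟨c, d, hd, rfl⟩
    have key : diagonal (cst 1 2 d) * e2 - e2 * diagonal (cst 1 2 d) = (d 0 - d 1) • e2 := by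
      apply blk_ext
      intro i i' j j'
      rw [Matrix.sub_apply, Matrix.diagonal_mul, Matrix.mul_diagonal, Matrix.smul_apply, e2_apply,
        cst_apply, cst_apply, smul_eq_mul]
      by_cases h : i = 0 ∧ i' = 1
      · rw [if_pos h, h.1, h.2]
        ring
      · rw [if_neg h]
        ring
    have h2 : rt2 𝔻 ⟨cst 1 2 d, d, hd, rfl⟩ = d 0 - d 1 := by
      show cst 1 2 d (finProdFinEquiv ((0 : Fin 2), (0 : Fin 1))) -
        cst 1 2 d (finProdFinEquiv ((1 : Fin 2), (0 : Fin 1))) = _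
      rw [cst_apply, cst_apply]
    rw [← h2] at key
    exact key
  sep := by
    rintro ⟨c, d, hd, rfl⟩ h
    have h1 : cst 1 2 d (finProdFinEquiv ((0 : Fin 2), (0 : Fin 1))) -
      cst 1 2 d (finProdFinEquiv ((1 : Fin 2), (0 : Fin 1))) = 0 := h ()
    rw [cst_apply, cst_apply] at h1
    rw [Fin.sum_univ_two] at hd
    apply Subtype.ext
    funext p
    obtain ⟨⟨i, j⟩, rfl⟩ := finProdFinEquiv.surjective p
    show cst 1 2 d _ = 0
    rw [cst_apply]
    fin_cases i
    · show d 0 = 0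
      linarith
    · show d 1 = 0
      linarith

theorem nr2 (𝔻 : Subalgebra ℝ (Matrix (Fin 1) (Fin 1) ℝ)) : (rb2 𝔻).NR :=
  fun _ => Or.inr fun _ _ => rfl

end Pool.Agent.QSB.Out
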