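import Pool.Agent.QSB.StmtsR

/-!
# Row JCC of squad QSB (MP_dc0713_gt): the defect commutes with the other directions
-/

set_option autoImplicit false

namespace Pool.Agent.QSB.H19

open Matrix Finset Pool.Agent.QSX Pool.Agent.QSB

section npr

variable {V : Type} [AddCommGroup V] [Module ℝ V] {ρ γ : V →ₗ[ℝ] ℝ} {c : ℝ}

/-- a nontrivial relation contradicts `NPr` -/
theorem npr_rel (h : NPr γ ρ) {s t : ℝ} (e : s • ρ = t • γ) : s = 0 ∧ t = 0 := by
  have ht : t = 0 := by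
    by_contra ht
    apply h.1 (t⁻¹ * s)
    rw [mul_smul, e, smul_smul, inv_mul_cancel₀ ht, one_smul]
  refine ⟨?_, ht⟩
  by_contra hs
  apply h.2 0
  rw [ht, zero_smul] at e
  rw [zero_smul]
  exact (smul_eq_zero.1 e).resolve_left hs

theorem npr1 (h : NPr γ ρ) : NPr ρ γ := ⟨h.2, h.1⟩

theorem npr2 (h : NPr γ ρ) (hc : 0 < c) : NPr (c • ρ) γ := by
  refine ⟨fun d e => ?_, fun d e => ?_⟩
  · exact hc.ne' (npr_rel h e).1
  · have e2 : (d * c) • ρ = (1 : ℝ) • γ := by rw [mul_smul, ← e, one_smul]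
    exact one_ne_zero (npr_rel h e2).2

theorem npr3 (h : NPr γ ρ) (c : ℝ) : NPr ρ (c • ρ + γ) := by
  refine ⟨fun d e => ?_, fun d e => ?_⟩
  · have e2 : (1 - d * c) • ρ = d • γ := by
      linear_combination (norm := module) e
    obtain ⟨h1, h2⟩ := npr_rel h e2
    rw [h2, zero_mul, sub_zero] at h1
    exact one_ne_zero h1
  · have e2 : (d - c) • ρ = (1 : ℝ) • γ := by
      linear_combination (norm := module) (-1 : ℝ) • e
    exact one_ne_zero (npr_rel h e2).2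

theorem npr4 (h : NPr γ ρ) (hc : 0 < c) : NPr (c • ρ) (ρ + γ) := by
  refine ⟨fun d e => ?_, fun d e => ?_⟩
  · have e2 : (c - d) • ρ = d • γ := by
      linear_combination (norm := module) e
    obtain ⟨h1, h2⟩ := npr_rel h e2
    rw [h2, sub_zero] at h1
    exact hc.ne' h1
  · have e2 : (d * c - 1) • ρ = (1 : ℝ) • γ := by
      linear_combination (norm := module) (-1 : ℝ) • e
    exact one_ne_zero (npr_rel h e2).2

theorem npr5 (h : NPr γ ρ) (hc : 0 < c) : NPr (ρ + c • ρ) γ := by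
  have e0 : ρ + c • ρ = (1 + c) • ρ := by rw [add_smul, one_smul]
  rw [e0]
  exact npr2 h (by linarith)

end npr

theorem jcc (bwt : BwtStmt) : JccStmt := by
  intro X m T hT ρ γ h c hc x y u hx hy hu
  obtain ⟨bw, -⟩ := bwt
  have wyu := bw X (c • ρ) γ y.1 u.1 hy hu
  have wxu := bw X ρ γ x.1 u.1 hx hu
  have wxy := bw X ρ (c • ρ) x.1 y.1 hx hy
  have H1 := hT (c • ρ) γ (npr2 h hc) y u hy hu
  have H2 := hT ρ γ (npr1 h) x u hx hu
  have H3 := hT ρ (c • ρ + γ) (npr3 h c) x ⟨_, X.lie y y.2 u u.2⟩ hx wyu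
  have H4 := hT (c • ρ) (ρ + γ) (npr4 h hc) y ⟨_, X.lie x x.2 u u.2⟩ hy wxu
  have H5 := hT (ρ + c • ρ) γ (npr5 h hc) ⟨_, X.lie x x.2 y y.2⟩ u wxy hu
  have J : (⟨_, X.lie _ (X.lie x x.2 y y.2) u u.2⟩ : X.n) =
      ⟨_, X.lie x x.2 _ (X.lie y y.2 u u.2)⟩ - ⟨_, X.lie y y.2 _ (X.lie x x.2 u u.2)⟩ := by
    apply Subtype.ext
    show _ = ((x : Matrix (Fin X.m) (Fin X.m) ℝ) * (y * u - u * y) - (y * u - u * y) * x) -
      (y * (x * u - u * x) - (x * u - u * x) * y)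
    noncomm_ring
  have J2 := congrArg T J
  rw [map_sub, H3, H4, H5, H1, H2] at J2
  have e : (T x * T y - T y * T x - T ⟨_, X.lie x x.2 y y.2⟩) * T u -
      T u * (T x * T y - T y * T x - T ⟨_, X.lie x x.2 y y.2⟩) =
      (T x * (T y * T u - T u * T y) - (T y * T u - T u * T y) * T x) -
      (T y * (T x * T u - T u * T x) - (T x * T u - T u * T x) * T y) -
      (T ⟨_, X.lie x x.2 y y.2⟩ * T u - T u * T ⟨_, X.lie x x.2 y y.2⟩) := by
    noncomm_ring
  rw [e, ← J2, sub_self]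

end Pool.Agent.QSB.H19
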