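import Pool.Agent.Helper10_QSX.PUB

/-!
# Symmetric spaces: public definitions (squad QSB, helper19)

Roots are vectors of `b` (by the standard scalar product).
-/

set_option autoImplicit false

namespace Pool.Agent.QSB

open Matrix Pool.Agent.QSX

/-- **Symmetric spaces.**  `X` is the Iwasawa datum of a Lie algebra `g` of real matrices which is closed
under the transpose: `b` is the space of the diagonal matrices in `g`; `a ∈ b` is a regular element:
the symmetric matrices in `g` which commute with it are diagonal (so `b` is maximal abelian in the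
symmetric matrices of `g`); `n` is the sum of the eigenspaces of `ad (diagonal a)` in `g` with positive
eigenvalues. -/
def IsSym (X : Dat) : Prop :=
  ∃ (g : Submodule ℝ (Matrix (Fin X.m) (Fin X.m) ℝ)) (a : Fin X.m → ℝ),
    (∀ x ∈ g, xᵀ ∈ g ∧ ∀ y ∈ g, lieb x y ∈ g) ∧ (∀ c, c ∈ X.b ↔ diagonal c ∈ g) ∧ a ∈ X.b ∧
    (∀ x, x ∈ X.n ↔ x ∈ g ∧ ∀ i j, x i j ≠ 0 → a j < a i) ∧
    ∀ x ∈ g, xᵀ = x → lieb (diagonal a) x = 0 → ∃ c, x = diagonal c

/-- `u ∈ b` is a root and `x ∈ n` a root vector: `[diag c, x] = ⟨u, c⟩ x` for all `c ∈ b`, `x ≠ 0` -/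
def RootV (X : Dat) (u : Fin X.m → ℝ) (x : Matrix (Fin X.m) (Fin X.m) ℝ) : Prop :=
  u ∈ X.b ∧ x ∈ X.n ∧ x ≠ 0 ∧ ∀ c ∈ X.b, lieb (diagonal c) x = (u ⬝ᵥ c) • x

/-- `u` is a root -/
def Root (X : Dat) (u : Fin X.m → ℝ) : Prop := ∃ x, RootV X u x

/-- **Sources**: symmetric spaces such that `n` has a basis `e` of root vectors with rational entries,
the roots `rt l` separate the points of `b` (no Euclidean factor), and there is no factor of rank one
except hyperbolic planes: for every `l` there is a root which is neither orthogonal nor proportional to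
`rt l`, or `l` is the only index whose root is not orthogonal to `rt l`. -/
def IsSrc (X : Dat) : Prop :=
  IsSym X ∧ ∃ (N : ℕ) (e : Fin N → Matrix (Fin X.m) (Fin X.m) ℝ) (rt : Fin N → Fin X.m → ℝ),
    (∀ l i j, ∃ q : ℚ, e l i j = (q : ℝ)) ∧ LinearIndependent ℝ e ∧
    Submodule.span ℝ (Set.range e) = X.n ∧ (∀ l, RootV X (rt l) (e l)) ∧
    (∀ c ∈ X.b, (∀ l, rt l ⬝ᵥ c = 0) → c = 0) ∧
    ∀ l, (∃ l', rt l ⬝ᵥ rt l' ≠ 0 ∧ ∀ r : ℝ, rt l' ≠ r • rt l) ∨
      ∀ l', rt l ⬝ᵥ rt l' ≠ 0 → l' = l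

/-- There is a factor of type `A_2` with root spaces of dimension `> 1`: roots `u`, `v`, not
proportional, such that `u + v` is a root and all other roots are orthogonal to `u` and `v`, and two
root vectors of `u` which are not proportional. -/
def HasA2 (X : Dat) : Prop :=
  ∃ u v, Root X u ∧ Root X v ∧ Root X (u + v) ∧ (∀ r : ℝ, u ≠ r • v ∧ v ≠ r • u) ∧
    (∀ w, Root X w → w = u ∨ w = v ∨ w = u + v ∨ (w ⬝ᵥ u = 0 ∧ w ⬝ᵥ v = 0)) ∧
    ∃ x y, RootV X u x ∧ RootV X u y ∧ ∀ c : ℝ, y ≠ c • x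

/-- no root is the double of a root (there is no factor of type `BC`) -/
def Reduced (X : Dat) : Prop := ∀ u, Root X u → ¬ Root X ((2 : ℝ) • u)

/-- there is a quasi-isometric embedding of `X` in `Y` -/
def QI (X Y : Dat) : Prop := ∃ f : X.Pt → Y.Pt, QIE X.dist Y.dist f

/-- there is a quasi-isometric embedding of `X` in `Y × E` for some real inner product space `E` (for
instance `E = ℝ^d`) -/
def QIF (X Y : Dat) : Prop :=
  ∃ (E : Type) (_ : NormedAddCommGroup E) (_ : InnerProductSpace ℝ E) (f : X.Pt → Y.Pt × E),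
    QIE X.dist (pdist Y E) f

/-- The admissible algebras of `k × k` matrices: `𝔻` is spanned by rational matrices, closed under the
transpose, and a division algebra. -/
def AdmD {k : ℕ} (𝔻 : Subalgebra ℝ (Matrix (Fin k) (Fin k) ℝ)) : Prop :=
  0 < k ∧ (∃ S : Set (Matrix (Fin k) (Fin k) ℝ), (∀ z ∈ S, ∀ i j, ∃ q : ℚ, z i j = (q : ℝ)) ∧
    Submodule.span ℝ S = Subalgebra.toSubmodule 𝔻) ∧
  (∀ a ∈ 𝔻, aᵀ ∈ 𝔻) ∧ ∀ a ∈ 𝔻, a ≠ 0 → ∃ b ∈ 𝔻, a * b = 1

/-- `𝔻` has an element `h ≠ 0` with `hᵀ = - ε h` (`ε = 1` or `-1`). -/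
def SkD {k : ℕ} (𝔻 : Subalgebra ℝ (Matrix (Fin k) (Fin k) ℝ)) (ε : ℝ) : Prop :=
  ∃ h ∈ 𝔻, h ≠ 0 ∧ hᵀ = (-ε) • h

/-- the real numbers as `1 × 1` matrices -/
noncomputable def aR : Subalgebra ℝ (Matrix (Fin 1) (Fin 1) ℝ) :=
  (Algebra.leftMulMatrix (Module.Basis.singleton (Fin 1) ℝ)).range

/-- the complex numbers as `2 × 2` matrices -/
noncomputable def aC : Subalgebra ℝ (Matrix (Fin 2) (Fin 2) ℝ) :=
  (Algebra.leftMulMatrix Complex.basisOneI).range

/-- the quaternions as `4 × 4` matrices -/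
noncomputable def aH : Subalgebra ℝ (Matrix (Fin 4) (Fin 4) ℝ) :=
  (Algebra.leftMulMatrix (R := ℝ) (S := Quaternion ℝ)
    (QuaternionAlgebra.basisOneIJK (-1) 0 (-1))).range

end Pool.Agent.QSB
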